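import Mathlib
import Pool.Agent.Helper394.Circ

set_option autoImplicit false

open Finset Filter Topology

namespace Pool.Agent.Results.MP_4b7267_pr.TransitiveNoCutoff

noncomputable section

/-- The graph `G` is vertex-transitive: its automorphism group acts transitively. -/
def VertexTransitive {V : Type} (G : SimpleGraph V) : Prop :=
  ∀ x y : V, ∃ φ : G ≃g G, φ x = y

/-- The transition matrix `P = (1/2)(I + D⁻¹A)` of the lazy simple random walk on `G`. -/
def lazySRW {V : Type} [Fintype V] [DecidableEq V] (G : SimpleGraph V) [DecidableRel G.Adj] :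
    Matrix V V ℝ :=
  (1 / 2 : ℝ) • ((1 : Matrix V V ℝ) +
    (Matrix.diagonal fun x => (G.degree x : ℝ))⁻¹ * G.adjMatrix ℝ)

/-- Total variation distance to stationarity, `d(t) = max_x ‖P^t(x,·) - π‖_TV`, where `π` is the
uniform distribution on `V`. -/
def d {V : Type} [Fintype V] [DecidableEq V] (P : Matrix V V ℝ) (t : ℕ) : ℝ :=
  ⨆ x : V, (1 / 2 : ℝ) * ∑ y, |(P ^ t) x y - 1 / (Fintype.card V : ℝ)|

/-- The mixing time `t_mix(ε) = min {t : d(t) ≤ ε}`. -/
def tmix {V : Type} [Fintype V] [DecidableEq V] (P : Matrix V V ℝ) (ε : ℝ) : ℕ :=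
  sInf {t : ℕ | d P t ≤ ε}

/-- The second largest eigenvalue of an irreducible transition matrix `P` (for which the
eigenvalue `1` is simple): the largest real eigenvalue different from `1`. -/
def lambda2 {V : Type} [Fintype V] [DecidableEq V] (P : Matrix V V ℝ) : ℝ :=
  sSup (spectrum ℝ P \ {1})

/-- The relaxation time `t_rel = 1 / (1 - λ₂)`. -/
def trel {V : Type} [Fintype V] [DecidableEq V] (P : Matrix V V ℝ) : ℝ :=
  1 / (1 - lambda2 P)

/-- The product condition `t_mix / t_rel → ∞`, with `t_mix = t_mix(1/4)`. -/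
def ProductCondition (V : ℕ → Type) [∀ n, Fintype (V n)] [∀ n, DecidableEq (V n)]
    (P : ∀ n, Matrix (V n) (V n) ℝ) : Prop :=
  Tendsto (fun n => (tmix (P n) (1 / 4) : ℝ) / trel (P n)) atTop atTop

/-- Total variation cutoff: `t_mix(ε) / t_mix(1-ε) → 1` for every fixed `ε ∈ (0,1)`. -/
def HasCutoff (V : ℕ → Type) [∀ n, Fintype (V n)] [∀ n, DecidableEq (V n)]
    (P : ∀ n, Matrix (V n) (V n) ℝ) : Prop :=
  ∀ ε : ℝ, 0 < ε → ε < 1 →
    Tendsto (fun n => (tmix (P n) ε : ℝ) / (tmix (P n) (1 - ε) : ℝ)) atTop (𝓝 1)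

/-- `G` is a circulant graph: a Cayley graph of the cyclic group `ℤ/N`. -/
def Circulant {N : ℕ} (G : SimpleGraph (ZMod N)) : Prop :=
  ∃ S : Finset (ZMod N), ∀ x y, G.Adj x y ↔ y - x ∈ S

section

variable {G : Type} [AddCommGroup G] [Fintype G] [DecidableEq G]

theorem lazySRW_apply {V : Type} [Fintype V] [DecidableEq V] (G : SimpleGraph V)
    [DecidableRel G.Adj] (hd : ∀ x, G.degree x ≠ 0) (x y : V) :
    lazySRW G x y =
      (if x = y then 1 / 2 else 0) + (if G.Adj x y then 1 / (2 * (G.degree x : ℝ)) else 0) := by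
  have hinv : (Matrix.diagonal fun x => (G.degree x : ℝ))⁻¹ =
      Matrix.diagonal fun x => (G.degree x : ℝ)⁻¹ := by
    apply Matrix.inv_eq_right_inv
    rw [Matrix.diagonal_mul_diagonal, ← Matrix.diagonal_one]
    congr 1
    funext x
    exact mul_inv_cancel₀ (by exact_mod_cast hd x)
  rw [lazySRW, hinv]
  simp only [Matrix.smul_apply, Matrix.add_apply, Matrix.diagonal_mul, Matrix.one_apply,
    SimpleGraph.adjMatrix_apply, smul_eq_mul]
  split_ifs <;> ring

theorem lazySRW_mulVec (S : Finset G) (h0 : (0 : G) ∉ S) (hn : ∀ s ∈ S, -s ∈ S)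
    (hS : S.Nonempty) (f : G → ℝ) :
    (lazySRW (Helper394.cay S h0 hn)).mulVec f = Helper394.V S f := by
  have hd : ∀ x, (Helper394.cay S h0 hn).degree x ≠ 0 := fun x => by
    rw [Helper394.cay_degree]
    exact hS.card_pos.ne'
  ext x
  rw [Helper394.V_apply, Helper394.U_apply]
  simp only [Matrix.mulVec, dotProduct, lazySRW_apply _ hd, add_mul, ite_mul, zero_mul,
    Helper394.cay_degree, Helper394.cay_adj]
  rw [Finset.sum_add_distrib]
  congr 1
  · rw [Finset.sum_ite_eq univ x]
    simp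
    ring
  · rw [← Finset.sum_filter]
    rw [div_div, Finset.sum_div]
    refine Finset.sum_bij' (fun y _ => y - x) (fun s _ => x + s) ?_ ?_ ?_ ?_ ?_
    · intro y hy; simpa using hy
    · intro s hs; simpa using hs
    · intro y _; simp
    · intro s _; simp
    · intro y _
      simp only [add_sub_cancel]
      ring

end

/-- There are circulant (hence vertex-transitive) connected graphs `G_n` on `ℤ/N_n`, `N_n → ∞`,
whose lazy simple random walks have `t_rel ≤ 8` and satisfy the product condition, but have no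
total variation cutoff; in fact `t_mix(1/2) > n` while `t_mix(1999/2000) ≤ n/4 + 17`. -/
theorem result :
    ∃ (N : ℕ → ℕ) (_ : ∀ n, NeZero (N n))
      (G : ∀ n, SimpleGraph (ZMod (N n))) (_ : ∀ n, DecidableRel (G n).Adj),
      Tendsto (fun n => Fintype.card (ZMod (N n))) atTop atTop ∧
      (∀ n, (G n).Connected) ∧
      (∀ n, VertexTransitive (G n)) ∧
      (∀ n, Circulant (G n)) ∧
      (∀ n, 0 < trel (lazySRW (G n)) ∧ trel (lazySRW (G n)) ≤ 8) ∧
      (∀ n, ∀ ε > 0, ∃ t, d (lazySRW (G n)) t ≤ ε) ∧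
      (∀ n, n < tmix (lazySRW (G n)) (1 / 2)) ∧
      (∀ n, (tmix (lazySRW (G n)) (1999 / 2000) : ℝ) ≤ n / 4 + 17) ∧
      ProductCondition (fun n => ZMod (N n)) (fun n => lazySRW (G n)) ∧
      ¬ HasCutoff (fun n => ZMod (N n)) (fun n => lazySRW (G n)) := by
  choose N hN S hTN hS using fun n : ℕ => Helper394.exists_bad (n + 64) (by omega)
  let G : ∀ n, SimpleGraph (ZMod (N n)) := fun n => Helper394.cay (S n) (hS n).zero (hS n).neg
  have hP : ∀ n, ∀ f : ZMod (N n) → ℝ, (lazySRW (G n)).mulVec f = Helper394.V (S n) f :=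
    fun n f => lazySRW_mulVec (S n) _ _ (hS n).nonempty f
  have hcard : ∀ n, (0 : ℝ) < Fintype.card (ZMod (N n)) := fun n => by
    exact_mod_cast Fintype.card_pos
  -- total variation
  have h1 : ∀ n, ∀ t ≤ n + 64, 1 / 2 < d (lazySRW (G n)) t := by
    intro n t ht
    have h := Helper394.fact_lower (hS n) (hP n) t ht
    have h' := Helper394.ciSup_ge_val
      (fun x : ZMod (N n) => (1 / 2 : ℝ) * ∑ y, |((lazySRW (G n)) ^ t) x y -
        1 / (Fintype.card (ZMod (N n)) : ℝ)|) 0
    have h'' : (17 / 32 : ℝ) ≤ d (lazySRW (G n)) t := h.trans h'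
    linarith
  have h2 : ∀ n, d (lazySRW (G n)) (2 * ((n + 64) / 8) + 1) ≤ 1 - 1 / 2000 := by
    intro n
    exact ciSup_le fun x => Helper394.fact_upper (hS n) (hP n) ((n + 64) / 8) (by omega) x
  have h3 : ∀ n ε, 0 < ε → ∃ t, d (lazySRW (G n)) t ≤ ε := by
    intro n ε hε
    have hG := hcard n
    obtain ⟨t, ht⟩ := Helper394.fact_conv (hS n) (hP n) (ε / Fintype.card (ZMod (N n)))
      (by positivity)
    refine ⟨t, ciSup_le fun x => ?_⟩
    calc (1 / 2 : ℝ) * ∑ y, |((lazySRW (G n)) ^ t) x y - 1 / (Fintype.card (ZMod (N n)) : ℝ)|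
        ≤ (1 / 2 : ℝ) * ∑ _y : ZMod (N n), ε / Fintype.card (ZMod (N n)) := by
          gcongr with y
          exact ht x y
      _ = ε / 2 := by
          simp only [Finset.sum_const, Finset.card_univ, nsmul_eq_mul]
          field_simp
      _ ≤ ε := by linarith
  have hrel : ∀ n, 0 < trel (lazySRW (G n)) ∧ trel (lazySRW (G n)) ≤ 8 := by
    intro n
    obtain ⟨h4, h5⟩ := Helper394.lam2_bound (lazySRW (G n))
      (fun lam hlam hne => Helper394.fact_spec (hS n) (hP n) lam hlam hne)
    have h7 : lambda2 (lazySRW (G n)) ≤ 7 / 8 := h5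
    have h6 : 0 < 1 - lambda2 (lazySRW (G n)) := by linarith
    refine ⟨one_div_pos.mpr h6, ?_⟩
    rw [trel, div_le_iff₀ h6]
    linarith
  refine ⟨N, hN, G, fun n => inferInstance, ?_, fun n => Helper394.cay_connected (hS n),
    fun n x y => Helper394.cay_transitive _ _ _ x y,
    fun n => ⟨S n, fun x y => Helper394.cay_adj _ _ _ x y⟩, hrel, h3, ?_, ?_, ?_, ?_⟩
  · refine tendsto_atTop_mono (fun n => ?_) tendsto_id
    rw [ZMod.card]
    have := hTN n
    simp only [id]
    omega
  · intro n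
    have : n + 64 + 1 ≤ tmix (lazySRW (G n)) (1 / 2) :=
      Helper394.sInf_gt _ (n + 64) _ le_rfl (h1 n) (h3 n _ (by norm_num))
    omega
  · intro n
    have h4 : tmix (lazySRW (G n)) (1999 / 2000) ≤ 2 * ((n + 64) / 8) + 1 :=
      Nat.sInf_le (show d (lazySRW (G n)) _ ≤ _ from by
        have := h2 n
        norm_num at this ⊢
        exact this)
    have h5 : 4 * tmix (lazySRW (G n)) (1999 / 2000) ≤ n + 68 := by omega
    have h6 : (4 : ℝ) * tmix (lazySRW (G n)) (1999 / 2000) ≤ n + 68 := by exact_mod_cast h5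
    linarith
  · exact Helper394.tendsto_div_of _ _
      (fun n => Helper394.sInf_gt _ (n + 64) _ (by norm_num) (h1 n) (h3 n _ (by norm_num))) hrel
  · intro hcut
    exact Helper394.no_cutoff_of (fun n => d (lazySRW (G n))) h1 h2 h3
      (hcut (1 / 2000) (by norm_num) (by norm_num))

end

end Pool.Agent.Results.MP_4b7267_pr.TransitiveNoCutoff
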